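import Pool.Agent.H86.CrzB

set_option autoImplicit false

namespace Pool.Agent.Results.MP_042718_an.CbCrouzeix

open Matrix

/-- the operator norm of a square matrix acting on Euclidean space -/
noncomputable def opn {d : Type} [Fintype d] [DecidableEq d] (x : Matrix d d ℂ) : ℝ :=
  ‖Matrix.toEuclideanCLM (n := d) (𝕜 := ℂ) x‖

/-- the block matrix with blocks `x i j`, an operator on the direct sum of `m` copies -/
def blk {m d : ℕ} (x : Fin m → Fin m → Matrix (Fin d) (Fin d) ℂ) :
    Matrix (Fin m × Fin d) (Fin m × Fin d) ℂ :=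
  fun p q => x p.1 q.1 p.2 q.2

/-- the completely bounded norm of `φ` (applied entrywise) is at most `c` -/
def CbLe {d k : ℕ} (A : Subalgebra ℂ (Matrix (Fin d) (Fin d) ℂ))
    (φ : A → Matrix (Fin k) (Fin k) ℂ) (c : ℝ) : Prop :=
  ∀ (m : ℕ) (x : Fin m → Fin m → A),
    opn (blk fun i j => φ (x i j)) ≤ c * opn (blk fun i j => (x i j).1)

/-- A counterexample to the completely bounded abstract Crouzeix conjecture. -/
theorem result : ∃ (A : Subalgebra ℂ (Matrix (Fin 4) (Fin 4) ℂ))
    (θ : A →ₐ[ℂ] Matrix (Fin 2) (Fin 2) ℂ) (α : A →ₛₗ[starRingEnd ℂ] A),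
    α 1 = 1 ∧ (∃ c, CbLe A θ c) ∧ CbLe A (fun f => (α f).1) 1 ∧ CbLe A (fun f => (α f).1ᴴ) 1 ∧
      CbLe A (fun f => (1 / 2 : ℂ) • (θ f + (θ (α f))ᴴ)) 1 ∧ ¬ CbLe A θ 2 := by
  open Pool.Agent.H86.Crz in
  let e := AlgEquiv.ofInjective rhA rhA_inj
  have he : ∀ f : rhA.range, f.1 = rh (e.symm f) := fun f => by
    conv_lhs => rw [← e.apply_symm_apply f]
    rfl
  have he' : ∀ a, (e a).1 = rhA a := fun _ => rfl
  refine ⟨rhA.range, thA.comp e.symm.toAlgHom,
    (e.toLinearEquiv.toLinearMap.comp alA).comp e.symm.toLinearEquiv.toLinearMap,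
    ?_, ⟨201 / 100, fun m x => ?_⟩, fun m x => ?_, fun m x => ?_, fun m x => ?_, fun h => ?_⟩
  · change e (alA (e.symm 1)) = 1
    rw [map_one, al_one, map_one]
  · simp only [he (x _ _)]
    exact cbT fun i j => e.symm (x i j)
  · simp only [he (x _ _), one_mul]
    change opn (blk fun i j => (e (alA (e.symm (x i j)))).1) ≤ _
    simp only [he', rh_al]
    exact cbL fun i j => e.symm (x i j)
  · simp only [he (x _ _), one_mul]
    change opn (blk fun i j => (e (alA (e.symm (x i j)))).1ᴴ) ≤ _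
    have : ∀ a, (rhA (alA a))ᴴ = (rh (ga a))ᵀ := fun a => by
      rw [rh_al]
      ext i j
      simp
    simp only [he', this]
    exact cbA fun i j => e.symm (x i j)
  · simp only [he (x _ _), one_mul]
    change opn (blk fun i j => (1 / 2 : ℂ) • (thA (e.symm (x i j)) +
      (thA (e.symm (e (alA (e.symm (x i j))))))ᴴ)) ≤ _
    simp only [AlgEquiv.symm_apply_apply, th_al]
    exact cbF fun i j => e.symm (x i j)
  · have := h 1 fun _ _ => e !![0, 0; 1, 0]
    change opn (blk fun _ _ => thA (e.symm (e _))) ≤ _ at this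
    simp only [AlgEquiv.symm_apply_apply] at this
    exact big.not_ge this

end Pool.Agent.Results.MP_042718_an.CbCrouzeix
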